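import Pool.Agent.H.MP_696e10_co.A

namespace Pool.Agent.H.MP_8f0578_co

open Classical Finset Pool.Agent.H.MP_696e10_co

/-- sum of the distances between consecutive vertices -/
def cost {V : Type} (ρ : V → V → ℝ) (l : List V) : ℝ :=
  ((l.zip l.tail).map fun p => ρ p.1 p.2).sum

/-- a metric on V -/
def IsMetric {V : Type} (ρ : V → V → ℝ) : Prop :=
  (∀ x y, ρ x y = 0 ↔ x = y) ∧ (∀ x y, ρ x y = ρ y x) ∧ ∀ x y z, ρ x z ≤ ρ x y + ρ y z

section
variable {V : Type} {Γ : SimpleGraph V} {P : V → V → List V}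

def Ad (l : List V) (x y : V) : Prop := [x, y] <:+: l ∨ [y, x] <:+: l

lemma pair_iff {l : List V} {x y : V} :
    [x, y] <:+: l ↔ ∃ i, l[i]? = some x ∧ l[i + 1]? = some y := by
  constructor
  · rintro ⟨s, t, rfl⟩
    exact ⟨s.length, by simp, by simp⟩
  · rintro ⟨i, h1, h2⟩
    have := (List.getElem?_eq_some_iff.1 h2).1
    refine List.infix_iff_getElem?.2 ⟨i, by simp; omega, fun j hj => ?_⟩
    have : j = 0 ∨ j = 1 := by simp at hj; omega
    rcases this with rfl | rfl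
    · simpa using h1
    · simpa [add_comm] using h2

lemma Ad.mono {l l' : List V} {x y : V} (h : Ad l x y) (h' : l <:+: l') : Ad l' x y :=
  h.imp (·.trans h') (·.trans h')

lemma Ad.rev {l : List V} {x y : V} (h : Ad l x y) : Ad l.reverse x y :=
  h.symm.imp (fun h => h.reverse) fun h => h.reverse

lemma inj {l : List V} (hl : l.Nodup) {i j : ℕ} {x : V} (h1 : l[i]? = some x)
    (h2 : l[j]? = some x) : i = j :=
  (List.getElem?_inj (List.getElem?_eq_some_iff.1 h1).1 hl).1 (h1.trans h2.symm)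

lemma ad_idx {l : List V} (hl : l.Nodup) {i : ℕ} {x y : V} (h1 : l[i]? = some x) :
    Ad l x y ↔ ∃ j, l[j]? = some y ∧ (j = i + 1 ∨ i = j + 1) := by
  unfold Ad
  rw [pair_iff, pair_iff]
  constructor
  · rintro (⟨j, a, b⟩ | ⟨j, a, b⟩)
    · exact ⟨_, b, Or.inl (by rw [inj hl a h1])⟩
    · exact ⟨_, a, Or.inr (inj hl h1 b)⟩
  · rintro ⟨j, a, rfl | rfl⟩
    · exact Or.inl ⟨i, h1, a⟩
    · exact Or.inr ⟨j, a, h1⟩

lemma seg0 (hP : Consistent Γ P) {A : List V} (hA : A.Nodup) {i k : ℕ} {x y : V}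
    (hx : A[i]? = some x) (hy : A[k]? = some y) (h : P x y <:+: A) :
    i + (P x y).length = k + 1 ∧ 0 < (P x y).length ∧
      ∀ t < (P x y).length, A[i + t]? = (P x y)[t]? := by
  obtain ⟨o, -, ho⟩ := List.infix_iff_getElem?.1 h
  obtain ⟨⟨-, -, h1, h2⟩, -⟩ := hP.1 x y
  rw [List.head?_eq_getElem?] at h1
  rw [List.getLast?_eq_getElem?] at h2
  have h0 := (List.getElem?_eq_some_iff.1 h1).1
  have ho' : ∀ t < (P x y).length, A[o + t]? = (P x y)[t]? := fun t ht => by
    rw [add_comm, ho t ht, List.getElem?_eq_getElem ht]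
  obtain rfl : o = i := inj hA ((ho' 0 h0).trans h1) hx
  have := inj hA ((ho' _ (by omega)).trans h2) hy
  exact ⟨by omega, h0, ho'⟩

lemma seg (hP : Consistent Γ P) {a b : V} {i k : ℕ} {x y : V} (hx : (P a b)[i]? = some x)
    (hy : (P a b)[k]? = some y) (hik : i ≤ k) :
    P x y <:+: P a b ∧ i + (P x y).length = k + 1 ∧
      ∀ t < (P x y).length, (P a b)[i + t]? = (P x y)[t]? := by
  have hA := (hP.1 a b).1.2.1
  rcases hP.2 a b x y (List.mem_of_getElem? hx) (List.mem_of_getElem? hy) with h | h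
  · exact ⟨h, (seg0 hP hA hx hy h).1, (seg0 hP hA hx hy h).2.2⟩
  · have := seg0 hP hA hy hx h
    obtain rfl : i = k := by omega
    obtain rfl : x = y := Option.some.inj (hx.symm.trans hy)
    exact ⟨h, this.1, this.2.2⟩

lemma mid (hP : Consistent Γ P) {a b c d : V} {i j k : ℕ} {x y z : V}
    (hx : (P a b)[i]? = some x) (hy : (P a b)[j]? = some y) (hz : (P a b)[k]? = some z)
    (hij : i < j) (hjk : j < k) (h1 : x ∈ P c d) (h2 : z ∈ P c d) (w : V) :
    Ad (P a b) y w ↔ Ad (P c d) y w := by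
  have hA := (hP.1 a b).1.2.1
  have hB := (hP.1 c d).1.2.1
  have hQ := (hP.1 x z).1.2.1
  obtain ⟨-, s2, s3⟩ := seg hP hx hz (by omega)
  have key : ∀ w, Ad (P a b) y w → Ad (P c d) y w := fun w h => by
    obtain ⟨t, ht, ht'⟩ := (ad_idx hA hy).1 h
    have : Ad (P x z) y w := by
      refine (ad_idx hQ (i := j - i) ?_).2 ⟨t - i, ?_, by omega⟩
      · rw [← s3 _ (by omega), ← hy]; congr 1; omega
      · rw [← s3 _ (by omega), ← ht]; congr 1; omega
    rcases hP.2 c d x z h1 h2 with h | h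
    · exact this.mono h
    · rw [(hP.1 x z).2] at h
      exact this.rev.mono h
  refine ⟨key w, fun h => ?_⟩
  have hk := (List.getElem?_eq_some_iff.1 hz).1
  obtain ⟨p, hp⟩ : ∃ p, (P a b)[j - 1]? = some p := ⟨_, List.getElem?_eq_getElem (by omega)⟩
  obtain ⟨q, hq⟩ : ∃ q, (P a b)[j + 1]? = some q := ⟨_, List.getElem?_eq_getElem (by omega)⟩
  have ap := (ad_idx hA hy).2 ⟨_, hp, Or.inr (by omega)⟩
  have aq := (ad_idx hA hy).2 ⟨_, hq, Or.inl rfl⟩
  obtain ⟨m, hm⟩ : ∃ m, (P c d)[m]? = some y :=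
    List.mem_iff_getElem?.1 (h.elim (fun h => h.subset (by simp)) fun h => h.subset (by simp))
  obtain ⟨t1, a1, b1⟩ := (ad_idx hB hm).1 (key p ap)
  obtain ⟨t2, a2, b2⟩ := (ad_idx hB hm).1 (key q aq)
  obtain ⟨t3, a3, b3⟩ := (ad_idx hB hm).1 h
  have : t1 ≠ t2 := by
    rintro rfl
    rw [Option.some.inj (a1.symm.trans a2)] at hp
    have := inj hA hp hq
    omega
  rcases (by omega : t3 = t1 ∨ t3 = t2) with rfl | rfl
  · rwa [Option.some.inj (a3.symm.trans a1)]
  · rwa [Option.some.inj (a3.symm.trans a2)]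

lemma two (hP : Consistent Γ P) (a b c d : V) (T : Finset V)
    (hT : ∀ x ∈ T, x ∈ P a b ∧ x ∈ P c d ∧ ¬ ∀ w, Ad (P a b) x w ↔ Ad (P c d) x w) : #T ≤ 2 := by
  rcases T.eq_empty_or_nonempty with rfl | hne
  · simp
  obtain ⟨m, hm, hm'⟩ := exists_min_image T (fun x => (P a b).idxOf x) hne
  obtain ⟨M, hM, hM'⟩ := exists_max_image T (fun x => (P a b).idxOf x) hne
  refine (card_le_card (t := {m, M}) fun x hx => ?_).trans card_le_two
  by_contra hc
  simp only [mem_insert, mem_singleton, not_or] at hc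
  have e := fun y (hy : y ∈ T) => List.getElem?_idxOf (hT y hy).1
  refine (hT x hx).2.2 (mid hP (e m hm) (e x hx) (e M hM) (lt_of_le_of_ne (hm' x hx) fun h => ?_)
    (lt_of_le_of_ne (hM' x hx) fun h => ?_) (hT m hm).2.1 (hT M hM).2.1)
  · exact hc.1 (Option.some.inj ((e x hx).symm.trans (h ▸ e m hm)))
  · exact hc.2 (Option.some.inj ((e x hx).symm.trans (h ▸ e M hM)))

lemma cost2 {ρ : V → V → ℝ} {c : V → ℝ} (hc : ∀ x, 0 ≤ c x) :
    ∀ l : List V, (∀ x y, [x, y] <:+: l → ρ x y ≤ c x) → cost ρ l ≤ (l.map c).sum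
  | [], _ => by simp [cost]
  | [x], _ => by simp [cost, hc]
  | x :: y :: t, h => by
    have := cost2 hc (y :: t) fun a b h' => h a b (h'.trans (List.infix_cons List.infix_rfl))
    have := h x y ⟨[], t, rfl⟩
    simp only [cost, List.tail_cons, List.zip_cons_cons, List.map_cons, List.sum_cons] at *
    linarith

lemma cost1 {ρ : V → V → ℝ} :
    ∀ l : List V, l ≠ [] → (∀ x y, [x, y] <:+: l → ρ x y ≤ 1) → cost ρ l + 1 ≤ l.length
  | [], h, _ => absurd rfl h
  | [x], _, _ => by simp [cost]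
  | x :: y :: t, _, h => by
    have := cost1 (y :: t) (by simp)
      fun a b h' => h a b (h'.trans (List.infix_cons List.infix_rfl))
    have := h x y ⟨[], t, rfl⟩
    simp only [cost, List.tail_cons, List.zip_cons_cons, List.map_cons, List.sum_cons,
      List.length_cons, Nat.cast_add, Nat.cast_one] at *
    linarith

end

variable {G : Type} [Group G] [Fintype G] {Γ : SimpleGraph G} {P : G → G → List G}

def ty (l : List G) (x : G) : Set G := {s | Ad l x (x * s)}

omit [Fintype G] in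
lemma ty_map (l : List G) (g x : G) : ty (l.map (g * ·)) (g * x) = ty l x := by
  have : ∀ a b : G, [g * a, g * b] <:+: l.map (g * ·) ↔ [a, b] <:+: l := fun a b => by
    refine ⟨fun h => ?_, fun h => h.map (g * ·)⟩
    simpa [Function.comp_def] using h.map (g⁻¹ * ·)
  ext s
  simp only [ty, Ad, Set.mem_ofPred_eq, mul_assoc, this]

lemma key (hP : Consistent Γ P) (hI : ∀ g x y, P (g * x) (g * y) = (P x y).map (g * ·))
    (a b c d : G) :
    #{p ∈ (P a b).toFinset ×ˢ (P c d).toFinset | ty (P a b) p.1 ≠ ty (P c d) p.2} ≤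
      2 * Fintype.card G := by
  refine card_le_mul_card_image_of_maps_to (f := fun p : G × G => p.1 * p.2⁻¹) (t := univ)
    (fun _ _ => mem_univ _) 2 fun g _ => ?_
  rw [← card_image_of_injOn (f := Prod.fst)]
  · refine two hP a b (g * c) (g * d) _ fun x hx => ?_
    obtain ⟨⟨x, y⟩, hp, rfl⟩ := mem_image.1 hx
    simp only [mem_filter, mem_product, List.mem_toFinset] at hp
    obtain ⟨⟨⟨h1, h2⟩, h3⟩, h4⟩ := hp
    obtain rfl : x = g * y := by rw [← h4]; simp
    rw [hI]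
    refine ⟨h1, List.mem_map_of_mem h2, fun h => h3 ?_⟩
    rw [← ty_map (P c d) g y]
    ext s
    exact h _
  · rintro ⟨x, y⟩ h1 ⟨x', y'⟩ h2 h
    obtain rfl : x = x' := h
    have e1 : x * y⁻¹ = g := (mem_filter.1 (mem_coe.1 h1)).2
    have e2 : x * y'⁻¹ = g := (mem_filter.1 (mem_coe.1 h2)).2
    rw [inv_injective (mul_left_cancel (e1.trans e2.symm))]

end Pool.Agent.H.MP_8f0578_co
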