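import Pool.Agent.H.MP_8f0578_co.A

namespace Pool.Agent.H.MP_8f0578_co

open Classical Finset Pool.Agent.H.MP_696e10_co

variable {G : Type} [Group G] [Fintype G] {Γ : SimpleGraph G} {P : G → G → List G}

noncomputable def tr (H : SimpleGraph G) (J : ℕ) (x y : G) : ℝ := ((min (H.edist x y) J).toNat : ℝ)

omit [Group G] [Fintype G] in
lemma tr_metric (H : SimpleGraph G) {J : ℕ} (hJ : 1 ≤ J) : IsMetric (tr H J) := by
  have ne : ∀ x y, min (H.edist x y) (J : ℕ∞) ≠ ⊤ := fun x y =>
    ne_top_of_le_ne_top (ENat.coe_ne_top J) (min_le_right _ _)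
  refine ⟨fun x y => ?_, fun x y => by simp only [tr, H.edist_comm], fun x y z => ?_⟩
  · have : (J : ℕ∞) ≠ 0 := by exact_mod_cast (by omega : J ≠ 0)
    simp only [tr, Nat.cast_eq_zero, ENat.toNat_eq_zero, ne, or_false, min_eq_zero, this,
      SimpleGraph.edist_eq_zero_iff]
  · unfold tr
    rw [← Nat.cast_add, ← ENat.toNat_add (ne _ _) (ne _ _), Nat.cast_le]
    refine ENat.toNat_le_toNat ?_ (WithTop.add_ne_top.2 ⟨ne _ _, ne _ _⟩)
    rcases le_total (H.edist x y) J with h | h
    · rcases le_total (H.edist y z) J with h' | h'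
      · rw [min_eq_left h, min_eq_left h']
        exact (min_le_left _ _).trans H.edist_triangle
      · rw [min_eq_right h']
        exact (min_le_right _ _).trans le_add_self
    · rw [min_eq_right h]
      exact (min_le_right _ _).trans le_self_add

omit [Group G] [Fintype G] in
lemma tr_le (H : SimpleGraph G) (J : ℕ) (x y : G) : tr H J x y ≤ J := by
  unfold tr
  exact_mod_cast ENat.toNat_le_of_le_coe (min_le_right _ _)

omit [Fintype G] in
lemma tr_one (D : Set G) (J : ℕ) (x : G) {s : G} (hs : s ∈ D) :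
    tr (SimpleGraph.mulCayley D) J x (x * s) ≤ 1 := by
  unfold tr
  have : (SimpleGraph.mulCayley D).edist x (x * s) ≤ (1 : ℕ) := by
    by_cases h : x = x * s
    · rw [← h]; simp
    · exact (SimpleGraph.edist_eq_one_iff_adj.2
        ((SimpleGraph.mulCayley_adj' D _ _).2 ⟨h, s, hs, Or.inl rfl⟩)).le
  exact_mod_cast ENat.toNat_le_of_le_coe ((min_le_left _ _).trans this)

omit [Fintype G] in
lemma near (hP : Consistent Γ P) {a b : G} {D : Set G} {J m : ℕ} (hJ : 1 ≤ J) (hm : J ≤ m)
    (hr : ∀ t, m ≤ t + J → t ≤ m + J → ∃ x, (P a b)[t]? = some x ∧ ty (P a b) x = D)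
    {u v : G} (hu : (P a b)[m]? = some u) (hd : (SimpleGraph.mulCayley D).edist u v ≤ J) :
    cost (tr (SimpleGraph.mulCayley D) J) (P u v) ≤ tr (SimpleGraph.mulCayley D) J u v := by
  have hA := (hP.1 a b).1.2.1
  have hr' : ∀ t x, m ≤ t + J → t ≤ m + J → (P a b)[t]? = some x → ty (P a b) x = D := by
    intro t x h1 h2 h3
    obtain ⟨y, h4, h5⟩ := hr t h1 h2
    rwa [Option.some.inj (h3.symm.trans h4)]
  have hinv : ∀ s ∈ D, s⁻¹ ∈ D := by
    intro s hs
    have h1 : Ad (P a b) u (u * s) := by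
      rw [← hr' m u (by omega) (by omega) hu] at hs; exact hs
    obtain ⟨t, ht, ht'⟩ := (ad_idx hA hu).1 h1
    rw [← hr' t _ (by omega) (by omega) ht]
    show Ad _ _ _
    rw [mul_inv_cancel_right]
    exact h1.symm
  have walk : ∀ x y (w : (SimpleGraph.mulCayley D).Walk x y) (k e : ℕ), (P a b)[k]? = some x →
      m ≤ k + e → k ≤ m + e → e + w.length ≤ J →
      ∃ k', (P a b)[k']? = some y ∧ m ≤ k' + (e + w.length) ∧ k' ≤ m + (e + w.length) := by
    intro x y w
    induction w with
    | nil => exact fun k e h1 h2 h3 _ => ⟨k, h1, h2, h3⟩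
    | @cons x z y h w ih =>
      intro k e h1 h2 h3 h4
      rw [SimpleGraph.Walk.length_cons] at h4 ⊢
      obtain ⟨s, hs, rfl⟩ : ∃ s ∈ D, z = x * s := by
        obtain ⟨-, g, hg, h | h⟩ := (SimpleGraph.mulCayley_adj' D _ _).1 h
        · exact ⟨g, hg, h.symm⟩
        · exact ⟨g⁻¹, hinv g hg, by simp [h]⟩
      rw [← hr' k x (by omega) (by omega) h1] at hs
      obtain ⟨t, ht, ht'⟩ := (ad_idx hA h1).1 hs
      obtain ⟨k', a1, a2, a3⟩ := ih t (e + 1) ht (by omega) (by omega) (by omega)
      exact ⟨k', a1, by omega, by omega⟩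
  obtain ⟨w, hw⟩ := SimpleGraph.exists_walk_of_edist_ne_top
    (ne_top_of_le_ne_top (ENat.coe_ne_top J) hd)
  have hl : w.length ≤ J := by rw [← hw] at hd; exact_mod_cast hd
  obtain ⟨k, hk, k1, k2⟩ := walk u v w m 0 hu (by omega) (by omega) (by omega)
  have e : tr (SimpleGraph.mulCayley D) J u v = w.length := by
    unfold tr
    rw [min_eq_left hd, ← hw, ENat.toNat_coe]
  have sg : ∀ i j x y, (P a b)[i]? = some x → (P a b)[j]? = some y → i ≤ j → m ≤ i + J →
      j ≤ m + J → ∀ p q, Ad (P x y) p q → tr (SimpleGraph.mulCayley D) J p q ≤ 1 := by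
    intro i j x y h1 h2 h3 h4 h5 p q h
    obtain ⟨s1, s2, s3⟩ := seg hP h1 h2 h3
    obtain ⟨t, ht⟩ : ∃ t, (P x y)[t]? = some p :=
      List.mem_iff_getElem?.1 (h.elim (fun h => h.subset (by simp)) fun h => h.subset (by simp))
    have hl := (List.getElem?_eq_some_iff.1 ht).1
    have := hr' (i + t) p (by omega) (by omega) ((s3 t hl).trans ht)
    have h6 : p⁻¹ * q ∈ D := by
      rw [← this]
      show Ad _ _ _
      rw [mul_inv_cancel_left]
      exact h.mono s1
    simpa using tr_one D J p h6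
  have hne : P u v ≠ [] := fun h => by simpa [h] using (hP.1 u v).1.2.2.1
  rw [e]
  rcases le_total m k with h | h
  · have c := cost1 _ hne fun p q hpq => sg m k u v hu hk h (by omega) (by omega) p q (Or.inl hpq)
    have := (seg hP hu hk h).2.1
    have : ((P u v).length : ℝ) ≤ w.length + 1 := by exact_mod_cast (by omega)
    linarith
  · have c := cost1 _ hne fun p q hpq => sg k m v u hk hu h (by omega) (by omega) p q (by
      rw [(hP.1 u v).2]; exact Ad.rev (Or.inl hpq))
    have := (seg hP hk hu h).2.1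
    rw [(hP.1 u v).2, List.length_reverse] at this
    have : ((P u v).length : ℝ) ≤ w.length + 1 := by exact_mod_cast (by omega)
    linarith

lemma main0 (hP : Consistent Γ P) (hI : ∀ g x y, P (g * x) (g * y) = (P x y).map (g * ·))
    (q : ℕ) (hq : Fintype.card G < q * q) :
    ∃ ρ, IsMetric ρ ∧ ∀ u v, cost ρ (P u v) ≤ 13 * q * ρ u v := by
  obtain ⟨⟨a, b, D⟩, -, hF⟩ := exists_max_image (univ : Finset (G × G × Set G))
    (fun t => #{x ∈ (P t.1 t.2.1).toFinset | ty (P t.1 t.2.1) x = t.2.2}) univ_nonempty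
  obtain ⟨F, hFd⟩ : ∃ F, F = #{x ∈ (P a b).toFinset | ty (P a b) x = D} := ⟨_, rfl⟩
  have hF' : ∀ c d E, #{x ∈ (P c d).toFinset | ty (P c d) x = E} ≤ F := fun c d E =>
    hFd ▸ hF (c, d, E) (mem_univ _)
  have hne : ∀ u v, P u v ≠ [] := fun u v h => by simpa [h] using (hP.1 u v).1.2.2.1
  have q0 : 0 < q := Nat.pos_of_ne_zero fun h => by simp [h] at hq
  by_cases hc : F ≤ 9 * q
  · refine ⟨fun x y => if x = y then 0 else 1, ⟨fun x y => by simp, fun x y => by simp [eq_comm],
      fun x y z => ?_⟩, fun u v => ?_⟩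
    · by_cases h1 : x = y
      · simp [h1]
      · by_cases h2 : y = z
        · simp [← h2]
        · simp only [if_neg h1, if_neg h2]
          split_ifs <;> norm_num
    have c := cost1 (ρ := fun x y => if x = y then (0 : ℝ) else 1) _ (hne u v) fun p q _ => by
      split_ifs <;> norm_num
    by_cases h : u = v
    · subst h
      have h0 : (P u u)[0]? = some u := List.head?_eq_getElem? ▸ (hP.1 u u).1.2.2.1
      have := (seg hP h0 h0 le_rfl).2.1
      rw [show (P u u).length = 1 by omega] at c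
      simp only [if_true, mul_zero]
      push_cast at c
      linarith
    · have k1 := key hP hI u v u v
      have k2 : #{p ∈ (P u v).toFinset ×ˢ (P u v).toFinset |
          ¬ ty (P u v) p.1 ≠ ty (P u v) p.2} ≤ F * #(P u v).toFinset := by
        refine card_le_mul_card_image_of_maps_to (f := Prod.snd)
          (fun p hp => (mem_product.1 (mem_filter.1 hp).1).2) F fun y _ => ?_
        refine le_trans (card_le_card_of_injOn Prod.fst (fun p hp => ?_) fun p hp p' hp' h => ?_)
          (hF' u v (ty (P u v) y))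
        · simp only [coe_filter, mem_filter, mem_product, Set.mem_ofPred_eq, not_not] at hp ⊢
          exact ⟨hp.1.1.1, hp.2 ▸ hp.1.2⟩
        · exact Prod.ext h ((mem_filter.1 (mem_coe.1 hp)).2.trans
            (mem_filter.1 (mem_coe.1 hp')).2.symm)
      have k3 := card_filter_add_card_filter_not (s := (P u v).toFinset ×ˢ (P u v).toFinset)
        (fun p => ty (P u v) p.1 ≠ ty (P u v) p.2)
      rw [card_product, List.toFinset_card_of_nodup (hP.1 u v).1.2.1] at k3
      rw [List.toFinset_card_of_nodup (hP.1 u v).1.2.1] at k2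
      have : (P u v).length ≤ 13 * q := by
        by_contra hl
        nlinarith
      have : ((P u v).length : ℝ) ≤ 13 * q := by exact_mod_cast this
      simp only [if_neg h, mul_one]
      linarith
  have hb : ∀ c d, #{y ∈ (P c d).toFinset | ¬ ty (P c d) y = D} ≤ q := by
    intro c d
    have k1 := key hP hI a b c d
    have k2 : F * #{y ∈ (P c d).toFinset | ¬ ty (P c d) y = D} ≤ 2 * Fintype.card G := by
      rw [hFd, ← card_product]
      refine le_trans (card_le_card fun p hp => ?_) k1
      simp only [mem_filter, mem_product] at hp ⊢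
      exact ⟨⟨hp.1.1, hp.2.1⟩, fun h => hp.2.2 (h ▸ hp.1.2)⟩
    by_contra hl
    nlinarith
  obtain ⟨J, hJ⟩ : ∃ J, J = F / (6 * q) := ⟨_, rfl⟩
  have j1 : 6 * q * J ≤ F := hJ ▸ Nat.mul_div_le F _
  have j2 : F < 6 * q * (J + 1) := hJ ▸ Nat.lt_mul_div_succ F (by omega)
  have j3 : 1 ≤ J := by
    by_contra h
    obtain rfl : J = 0 := by omega
    omega
  have hA := (hP.1 a b).1.2.1
  have hL : F ≤ (P a b).length := by
    rw [hFd, ← List.toFinset_card_of_nodup hA]
    exact card_filter_le _ _
  obtain ⟨m, hm, hr⟩ : ∃ m, J ≤ m ∧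
      ∀ t, m ≤ t + J → t ≤ m + J → ∃ x, (P a b)[t]? = some x ∧ ty (P a b) x = D := by
    by_contra hn
    push Not at hn
    choose t t1 t2 t3 using fun β => hn (β * (2 * J + 1) + J) (by omega)
    have tl : ∀ β ∈ range (q + 1), t β < (P a b).length := fun β hβ => by
      have := t2 β
      have : β ≤ q := by simpa [Nat.lt_succ_iff] using hβ
      nlinarith
    have e : ∀ β ∈ range (q + 1), (P a b)[t β]? = some ((P a b).getD (t β) 1) := fun β hβ => by
      simp [List.getElem?_eq_getElem (tl β hβ)]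
    have := le_trans (card_le_card_of_injOn (s := range (q + 1))
      (fun β => (P a b).getD (t β) 1) (fun β hβ => ?_) fun β hβ γ hγ h => ?_) (hb a b)
    · simp at this
    · simp only [coe_filter, List.mem_toFinset, Set.mem_ofPred_eq]
      exact ⟨List.mem_of_getElem? (e β hβ), t3 β _ (e β hβ)⟩
    · have := inj hA (e β hβ) (by rw [show (P a b).getD (t β) 1 = _ from h]; exact e γ hγ)
      have a1 := t1 β
      have a2 := t2 β
      have a3 := t1 γ
      have a4 := t2 γ
      rcases lt_trichotomy β γ with h | h | h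
      · nlinarith
      · exact h
      · nlinarith
  refine ⟨_, tr_metric (SimpleGraph.mulCayley D) j3, fun u v => ?_⟩
  have r0 : 0 ≤ tr (SimpleGraph.mulCayley D) J u v := Nat.cast_nonneg _
  have q1 : (1 : ℝ) ≤ q := by exact_mod_cast q0
  rcases le_total ((SimpleGraph.mulCayley D).edist u v) J with hd | hd
  · obtain ⟨z, hz, -⟩ := hr m (by omega) (by omega)
    have := near hP (a := u * z⁻¹ * a) (b := u * z⁻¹ * b) j3 hm (fun t h1 h2 => by
      obtain ⟨x, h3, h4⟩ := hr t h1 h2
      exact ⟨u * z⁻¹ * x, by simp [hI, h3], by rw [hI, ty_map, h4]⟩) (by simp [hI, hz]) hd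
    nlinarith
  · have e : tr (SimpleGraph.mulCayley D) J u v = J := by
      unfold tr
      rw [min_eq_right hd, ENat.toNat_coe]
    have c := cost2 (ρ := tr (SimpleGraph.mulCayley D) J)
      (c := fun x => if ty (P u v) x = D then (1 : ℝ) else J)
      (fun x => by split_ifs <;> positivity) (P u v) fun x y h => by
        split_ifs with h'
        · have h6 : x⁻¹ * y ∈ D := by
            rw [← h']
            show Ad _ _ _
            rw [mul_inv_cancel_left]
            exact Or.inl h
          simpa using tr_one D J x h6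
        · exact tr_le _ _ _ _
    rw [← List.sum_toFinset _ (hP.1 u v).1.2.1, sum_ite, sum_const, sum_const, nsmul_eq_mul,
      nsmul_eq_mul] at c
    have c1 := (Nat.cast_le (α := ℝ)).2 (hF' u v D)
    have c2 := (Nat.cast_le (α := ℝ)).2 (hb u v)
    have c3 : (F : ℝ) ≤ 12 * q * J := by exact_mod_cast (by nlinarith : F ≤ 12 * q * J)
    have c4 := mul_le_mul_of_nonneg_right c2 (Nat.cast_nonneg (α := ℝ) J)
    rw [e]
    linarith

theorem main (hP : Consistent Γ P) (hI : ∀ g x y, P (g * x) (g * y) = (P x y).map (g * ·)) :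
    ∃ ρ, IsMetric ρ ∧ ∀ u v, cost ρ (P u v) ≤ 26 * √(Fintype.card G) * ρ u v := by
  obtain ⟨ρ, h1, h2⟩ := main0 hP hI _ (Nat.lt_succ_sqrt _)
  refine ⟨ρ, h1, fun u v => (h2 u v).trans (mul_le_mul_of_nonneg_right ?_ ?_)⟩
  · have a1 := Real.nat_sqrt_le_real_sqrt (a := Fintype.card G)
    have a2 : 1 ≤ √(Fintype.card G : ℝ) :=
      Real.one_le_sqrt.2 (by exact_mod_cast Fintype.card_pos)
    push_cast
    linarith
  · have a1 := h1.2.2 u v u
    rw [(h1.1 u u).2 rfl, h1.2.1 v u] at a1
    linarith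

end Pool.Agent.H.MP_8f0578_co
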